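import Pool.Agent.Helper48.MD.Digits

/-!
# Missing blocks of digits
-/

set_option autoImplicit false

open Finset Real

namespace Pool.Agent.Helper48.MD

open Pool.Agent.Helper25.RC (repF)

/-- a missing block of `h` digits at position `p` is an arc without residues -/
theorem block_arc {b h p w a j : ℕ} (hb : 0 < b) (hw : w < b ^ h) (ha : a / b ^ p % b ^ h ≠ w)
    (hj : j < b ^ p) : ¬ a ≡ w * b ^ p + j [MOD b ^ (p + h)] := by
  intro h'
  apply ha
  have hp : 0 < b ^ p := pow_pos hb p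
  have hlt : w * b ^ p + j < b ^ (p + h) := by
    calc w * b ^ p + j < w * b ^ p + b ^ p := by omega
      _ = (w + 1) * b ^ p := by ring
      _ ≤ b ^ h * b ^ p := Nat.mul_le_mul_right _ hw
      _ = b ^ (p + h) := by ring
  have h1 : a % b ^ (p + h) = w * b ^ p + j := by
    have := h'
    unfold Nat.ModEq at this
    rwa [Nat.mod_eq_of_lt hlt] at this
  rw [← Nat.mod_mul_right_div_self, ← pow_add, h1, mul_comm, Nat.mul_add_div hp,
    Nat.div_eq_of_lt hj, add_zero]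

/-- the gain of one missing block of length `h` in base `b` -/
noncomputable def gainB (b h : ℕ) : ℝ := 1 + 1 / ((b : ℝ) ^ (h + 1) - 1) ^ 3

theorem one_lt_gainB {b : ℕ} (hb : 2 ≤ b) (h : ℕ) : 1 < gainB b h := by
  have h1 : (2 : ℝ) ≤ b := by exact_mod_cast hb
  have h2 : (1 : ℝ) < (b : ℝ) ^ (h + 1) := one_lt_pow₀ (by linarith) (by omega)
  have : 0 < (b : ℝ) ^ (h + 1) - 1 := by linarith
  unfold gainB
  have : 0 < 1 / ((b : ℝ) ^ (h + 1) - 1) ^ 3 := by positivity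
  linarith

theorem stepB {S : Finset ℕ} {b h p : ℕ} (hb : 2 ≤ b) (hp : 1 ≤ p)
    (hd : ∃ w < b ^ h, ∀ a ∈ S, a / b ^ p % b ^ h ≠ w) :
    gainB b h * mE S (b ^ (p - 1)) ≤ mE S (b ^ (p + h)) := by
  obtain ⟨w, hw, hS⟩ := hd
  have e : b ^ (p + h) = b ^ (h + 1) * b ^ (p - 1) := by
    rw [← pow_add]
    congr 1
    omega
  have hk : 2 ≤ b ^ (h + 1) := by
    calc 2 ≤ b := hb
      _ = b ^ 1 := (pow_one b).symm
      _ ≤ b ^ (h + 1) := Nat.pow_le_pow_right (by omega) (by omega)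
  have h' := arcLemma S (b ^ (p - 1)) (b ^ (h + 1)) (w * b ^ p) (by positivity) hk ?_
  · rw [e]
    unfold gainB
    push_cast at h'
    exact h'
  · intro a ha j hj
    rw [← e]
    refine block_arc (by omega) hw (hS a ha) (lt_of_lt_of_le hj ?_)
    have e2 : b ^ p = b * b ^ (p - 1) := by
      rw [← pow_succ']
      congr 1
      omega
    rw [e2]
    have : 2 * b ^ (p - 1) ≤ b * b ^ (p - 1) := Nat.mul_le_mul_right _ hb
    omega

/-- missing blocks at positions with gaps at least `h + 1` -/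
theorem blocks {S : Finset ℕ} {b : ℕ} (hb : 2 ≤ b) (h : ℕ) (P : Finset ℕ) :
    (∀ p ∈ P, 1 ≤ p) → (∀ p ∈ P, ∀ q ∈ P, p < q → p + h + 1 ≤ q) →
    (∀ p ∈ P, ∃ w < b ^ h, ∀ a ∈ S, a / b ^ p % b ^ h ≠ w) → ∀ N, (∀ p ∈ P, p + h ≤ N) →
    (#S : ℝ) ^ 4 * gainB b h ^ #P ≤ mE S (b ^ N) := by
  have hb0 : 0 < b := by omega
  induction P using Finset.induction_on_max with
  | empty =>
    intro _ _ _ N _
    simpa using card_pow_le S (pow_pos hb0 N)
  | insert p P hmax ih =>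
    intro h1 h2 h3 N hN
    have hpP : p ∉ P := fun h => (hmax p h).false
    have ih' := ih (fun q hq => h1 q (mem_insert_of_mem hq))
      (fun q hq q' hq' => h2 q (mem_insert_of_mem hq) q' (mem_insert_of_mem hq'))
      (fun q hq => h3 q (mem_insert_of_mem hq)) (p - 1) (fun q hq => by
        have := h2 q (mem_insert_of_mem hq) p (mem_insert_self _ _) (hmax q hq)
        omega)
    have hs := stepB (S := S) hb (h1 p (mem_insert_self _ _)) (h3 p (mem_insert_self _ _))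
    have hm : mE S (b ^ (p + h)) ≤ mE S (b ^ N) :=
      mE_mono S (pow_pos hb0 N) (pow_dvd_pow b (hN p (mem_insert_self _ _)))
    rw [card_insert_of_notMem hpP, pow_succ (gainB b h), ← mul_assoc]
    have hg : 0 ≤ gainB b h := by linarith [one_lt_gainB hb h]
    calc ((#S : ℝ) ^ 4 * gainB b h ^ #P) * gainB b h ≤ mE S (b ^ (p - 1)) * gainB b h :=
          mul_le_mul_of_nonneg_right ih' hg
      _ = gainB b h * mE S (b ^ (p - 1)) := mul_comm _ _
      _ ≤ mE S (b ^ N) := hs.trans hm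

/-- missing blocks: a proportion `1 / (h + 1)` of all positions can be used -/
theorem blocks' {S : Finset ℕ} {b : ℕ} (hb : 2 ≤ b) (h : ℕ) (P : Finset ℕ)
    (h1 : ∀ p ∈ P, 1 ≤ p) (h3 : ∀ p ∈ P, ∃ w < b ^ h, ∀ a ∈ S, a / b ^ p % b ^ h ≠ w) {N : ℕ}
    (hN : ∀ p ∈ P, p + h ≤ N) :
    (#S : ℝ) ^ 4 * gainB b h ^ (#P / (h + 1)) ≤ mE S (b ^ N) := by
  obtain ⟨t, _, ht⟩ := exists_le_card_fiber_of_mul_le_card_of_maps_to
    (s := P) (t := range (h + 1)) (f := fun p => p % (h + 1)) (n := #P / (h + 1))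
    (fun p _ => mem_range.2 (Nat.mod_lt _ (by omega))) ⟨0, by simp⟩ (by
      rw [card_range]
      exact Nat.mul_div_le _ _)
  have key := blocks (S := S) hb h {p ∈ P | p % (h + 1) = t} (fun p hp => h1 p (mem_filter.1 hp).1)
    (fun p hp q hq hpq => by
      have e1 := (mem_filter.1 hp).2
      have e2 := (mem_filter.1 hq).2
      have e3 : p ≡ q [MOD (h + 1)] := e1.trans e2.symm
      have e4 : h + 1 ∣ q - p := (Nat.modEq_iff_dvd' hpq.le).1 e3
      have e5 := Nat.le_of_dvd (by omega) e4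
      omega) (fun p hp => h3 p (mem_filter.1 hp).1) N fun p hp => hN p (mem_filter.1 hp).1
  refine le_trans ?_ key
  exact mul_le_mul_of_nonneg_left (pow_le_pow_right₀ (one_lt_gainB hb h).le ht) (by positivity)

/-- (F), the form with a finite set of positions -/
theorem blocks_energy {S : Finset ℕ} {b : ℕ} (hb : 2 ≤ b) (h : ℕ) {n : ℕ}
    (hS : S ⊆ range (b ^ n)) (P : Finset ℕ)
    (h1 : ∀ p ∈ P, 1 ≤ p) (h3 : ∀ p ∈ P, ∃ w < b ^ h, ∀ a ∈ S, a / b ^ p % b ^ h ≠ w)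
    (hN : ∀ p ∈ P, p + h ≤ n) :
    (#S : ℝ) ^ 4 * (1 + 1 / ((b : ℝ) ^ (h + 1) - 1) ^ 3) ^ (#P / (h + 1)) ≤
      3 * (b : ℝ) ^ n * ∑ k ∈ range (2 * b ^ n), (repF S k : ℝ) ^ 2 := by
  have h4 := (blocks' hb h P h1 h3 hN).trans
    (mE_le hS (pow_pos (by omega) n) le_rfl)
  unfold gainB En at h4
  push_cast at h4
  exact h4

open Classical in
/-- (F): sets of integers with exactly `n` digits -/
theorem F {S : Finset ℕ} {b : ℕ} (hb : 2 ≤ b) {h n : ℕ} (P : Set ℕ) (w : ℕ → ℕ)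
    (hw : ∀ p ∈ P, w p < b ^ h) (hS : ∀ a ∈ S, b ^ (n - 1) ≤ a ∧ a < b ^ n)
    (hmiss : ∀ a ∈ S, ∀ p ∈ P, b ^ (p + h) ≤ a → a / b ^ p % b ^ h ≠ w p) :
    (#S : ℝ) ^ 4 * (1 + 1 / ((b : ℝ) ^ (h + 1) - 1) ^ 3) ^
        (#{p ∈ range n | p ∈ P ∧ 1 ≤ p ∧ p + h ≤ n - 1} / (h + 1)) ≤
      3 * (b : ℝ) ^ n * ∑ k ∈ range (2 * b ^ n), (repF S k : ℝ) ^ 2 := by
  refine blocks_energy hb h (fun a ha => mem_range.2 (hS a ha).2) _ (fun p hp => ?_)
    (fun p hp => ?_) (fun p hp => ?_)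
  · exact (mem_filter.1 hp).2.2.1
  · obtain ⟨_, hpP, _, hpn⟩ := mem_filter.1 hp
    exact ⟨w p, hw p hpP, fun a ha => hmiss a ha p hpP
      ((Nat.pow_le_pow_right (by omega) hpn).trans (hS a ha).1)⟩
  · have := (mem_filter.1 hp).2.2.2
    omega

end Pool.Agent.Helper48.MD
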