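import Pool.Agent.Helper38.RC.LS2

/-!
# Fourth moments at fractions with a fixed denominator, and chains of moduli
-/

set_option autoImplicit false

open Finset Real

namespace Pool.Agent.Helper48.MD

open Pool.Agent.Helper25.RC (repF quad_le sum_add)
open Pool.Agent.Helper38.RC (expSum sum_exp_mod)

/-- the fourth moment of the exponential sum at the fractions with denominator `m` -/
noncomputable def mE (S : Finset ℕ) (m : ℕ) : ℝ := ∑ j ∈ range m, ‖expSum S ((j : ℝ) / m)‖ ^ 4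

theorem mE_nonneg (S : Finset ℕ) (m : ℕ) : 0 ≤ mE S m := sum_nonneg fun _ _ => by positivity

theorem expSum_zero (S : Finset ℕ) : expSum S 0 = #S := by
  unfold expSum
  simp

theorem card_pow_le (S : Finset ℕ) {m : ℕ} (hm : 0 < m) : (#S : ℝ) ^ 4 ≤ mE S m := by
  unfold mE
  have h := single_le_sum (f := fun j : ℕ => ‖expSum S ((j : ℝ) / m)‖ ^ 4)
    (fun i _ => by positivity) (mem_range.2 hm)
  refine le_trans (le_of_eq ?_) h
  simp only [Nat.cast_zero, zero_div, expSum_zero, Complex.norm_natCast]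

theorem mE_mono (S : Finset ℕ) {m M : ℕ} (hM : 0 < M) (h : m ∣ M) : mE S m ≤ mE S M := by
  classical
  obtain ⟨k, rfl⟩ := h
  have hm : 0 < m := Nat.pos_of_ne_zero fun h => by simp [h] at hM
  have hk : 0 < k := Nat.pos_of_ne_zero fun h => by simp [h] at hM
  unfold mE
  have hinj : Set.InjOn (fun j => j * k) (range m : Set ℕ) := fun a _ b _ hab =>
    Nat.eq_of_mul_eq_mul_right hk hab
  have e : ∑ j ∈ range m, ‖expSum S ((j : ℝ) / m)‖ ^ 4 =
      ∑ j ∈ (range m).image (fun j => j * k), ‖expSum S ((j : ℝ) / (m * k : ℕ))‖ ^ 4 := by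
    rw [sum_image hinj]
    refine sum_congr rfl fun j _ => ?_
    have hk' : (k : ℝ) ≠ 0 := by exact_mod_cast hk.ne'
    have hm' : (m : ℝ) ≠ 0 := by exact_mod_cast hm.ne'
    have : ((j * k : ℕ) : ℝ) / (m * k : ℕ) = (j : ℝ) / m := by
      push_cast
      field_simp
    rw [this]
  rw [e]
  refine sum_le_sum_of_subset_of_nonneg ?_ fun _ _ _ => by positivity
  intro i hi
  obtain ⟨j, hj, rfl⟩ := mem_image.1 hi
  rw [mem_range] at hj ⊢
  exact Nat.mul_lt_mul_of_pos_right hj hk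

/-- the fourth moment counts the quadruples congruent modulo `M` -/
theorem mE_eq (S : Finset ℕ) {M : ℕ} (hM : 0 < M) : mE S M =
    M * ∑ u ∈ S ×ˢ S, ∑ v ∈ S ×ˢ S, (if u.1 + u.2 ≡ v.1 + v.2 [MOD M] then (1 : ℝ) else 0) := by
  classical
  have h1 : ∀ t : ℝ, ((‖expSum S t‖ ^ 4 : ℝ) : ℂ) = ∑ u ∈ S ×ˢ S, ∑ v ∈ S ×ˢ S,
      Complex.exp (((2 * π * (((u.1 + u.2 : ℕ) : ℝ) - (v.1 + v.2 : ℕ)) * t : ℝ) : ℂ) *
        Complex.I) := by
    intro t
    have h2 : ((‖expSum S t‖ ^ 4 : ℝ) : ℂ) =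
        (expSum S t * expSum S t) * ((starRingEnd ℂ) (expSum S t) *
          (starRingEnd ℂ) (expSum S t)) := by
      have h3 : ((‖expSum S t‖ ^ 2 : ℝ) : ℂ) = expSum S t * (starRingEnd ℂ) (expSum S t) := by
        rw [Complex.mul_conj, Complex.normSq_eq_norm_sq]
      have h4 : ((‖expSum S t‖ ^ 4 : ℝ) : ℂ) = ((‖expSum S t‖ ^ 2 : ℝ) : ℂ) ^ 2 := by
        push_cast; ring
      rw [h4, h3]
      ring
    rw [h2]
    unfold expSum
    rw [map_sum, sum_mul_sum, sum_mul_sum, ← sum_product', ← sum_product', sum_mul_sum]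
    refine sum_congr rfl fun u _ => sum_congr rfl fun v _ => ?_
    rw [← Complex.exp_conj, ← Complex.exp_conj, ← Complex.exp_add, ← Complex.exp_add,
      ← Complex.exp_add]
    congr 1
    simp only [map_mul, Complex.conj_I, Complex.conj_ofReal]
    push_cast
    ring
  have h3 : ((mE S M : ℝ) : ℂ) = ((M * ∑ u ∈ S ×ˢ S, ∑ v ∈ S ×ˢ S,
      (if u.1 + u.2 ≡ v.1 + v.2 [MOD M] then (1 : ℝ) else 0) : ℝ) : ℂ) := by
    unfold mE
    rw [Complex.ofReal_sum]
    simp_rw [h1]
    rw [sum_comm]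
    push_cast
    rw [mul_sum]
    refine sum_congr rfl fun u _ => ?_
    rw [sum_comm, mul_sum]
    refine sum_congr rfl fun v _ => ?_
    have h4 := sum_exp_mod hM (u.1 + u.2) (v.1 + v.2)
    push_cast at h4
    rw [h4]
    split_ifs <;> simp
  exact_mod_cast h3

/-- the energy -/
noncomputable def En (S : Finset ℕ) (x : ℕ) : ℝ := ∑ n ∈ range (2 * x), (repF S n : ℝ) ^ 2

theorem mE_le {S : Finset ℕ} {M x : ℕ} (hS : S ⊆ range x) (hM : 0 < M) (hx : M ≤ x) :
    mE S M ≤ 3 * x * En S x := by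
  have hM' : (0 : ℝ) < M := by exact_mod_cast hM
  rw [mE_eq S hM]
  refine (mul_le_mul_of_nonneg_left (quad_le S hS hM hx) hM'.le).trans (le_of_eq ?_)
  unfold En
  field_simp

/-- the growth of the fourth moment along a chain of levels -/
theorem chain (S : Finset ℕ) {n : ℕ} (L m M : ℕ → ℕ) (c : ℕ → ℝ) (h0 : 0 < L 0)
    (hc : ∀ i < n, 0 ≤ c i) (hL : ∀ i < n, 0 < L (i + 1)) (hm : ∀ i < n, 0 < m i)
    (h1 : ∀ i < n, L i ∣ m i) (h2 : ∀ i < n, M i ∣ L (i + 1))
    (h3 : ∀ i < n, (1 + c i) * mE S (m i) ≤ mE S (M i)) :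
    (#S : ℝ) ^ 4 * ∏ i ∈ range n, (1 + c i) ≤ mE S (L n) := by
  induction n with
  | zero => simpa using card_pow_le S h0
  | succ n ih =>
    have ih' := ih (fun i hi => hc i (by omega)) (fun i hi => hL i (by omega))
      (fun i hi => hm i (by omega)) (fun i hi => h1 i (by omega)) (fun i hi => h2 i (by omega))
      (fun i hi => h3 i (by omega))
    have hn : n < n + 1 := by omega
    have hcn : 0 ≤ 1 + c n := by linarith [hc n hn]
    rw [prod_range_succ, ← mul_assoc]
    calc ((#S : ℝ) ^ 4 * ∏ i ∈ range n, (1 + c i)) * (1 + c n)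
        ≤ mE S (L n) * (1 + c n) := mul_le_mul_of_nonneg_right ih' hcn
      _ ≤ mE S (m n) * (1 + c n) :=
          mul_le_mul_of_nonneg_right (mE_mono S (hm n hn) (h1 n hn)) hcn
      _ = (1 + c n) * mE S (m n) := mul_comm _ _
      _ ≤ mE S (M n) := h3 n hn
      _ ≤ mE S (L (n + 1)) := mE_mono S (hL n hn) (h2 n hn)

theorem sum_repF {S : Finset ℕ} {x : ℕ} (hS : S ⊆ range x) :
    ∑ n ∈ range (2 * x), (repF S n : ℝ) = (#S : ℝ) ^ 2 := by
  have h := sum_add S hS (fun _ => (1 : ℝ))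
  simp only [mul_one] at h
  rw [← h, sum_const, card_product]
  simp [sq]

/-- some sum has many representations -/
theorem exists_rep {S : Finset ℕ} {x : ℕ} (hS : S ⊆ range x) (hx : 0 < x) {B : ℝ}
    (h : (#S : ℝ) ^ 4 * B ≤ 3 * x * En S x) :
    ∃ n < 2 * x, (#S : ℝ) ^ 2 / (3 * x) * B ≤ repF S n := by
  by_contra hcon
  push Not at hcon
  have hx' : (0 : ℝ) < x := by exact_mod_cast hx
  rcases Nat.eq_zero_or_pos (#S) with h0 | h0
  · have := hcon 0 (by omega)
    rw [h0] at this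
    simp at this
    have h2 : (0 : ℝ) ≤ repF S 0 := by positivity
    linarith
  · have hT : (0 : ℝ) < #S := by exact_mod_cast h0
    -- some representation number is positive
    have hs := sum_repF hS
    have hlt : En S x < (#S : ℝ) ^ 2 / (3 * x) * B * ∑ n ∈ range (2 * x), (repF S n : ℝ) := by
      unfold En
      rw [mul_sum]
      obtain ⟨n, hn, hpos⟩ : ∃ n ∈ range (2 * x), 0 < (repF S n : ℝ) := by
        by_contra hc
        push Not at hc
        have : ∑ n ∈ range (2 * x), (repF S n : ℝ) ≤ 0 := sum_nonpos hc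
        rw [hs] at this
        have : 0 < (#S : ℝ) ^ 2 := by positivity
        linarith
      refine sum_lt_sum (fun n hn => ?_) ⟨n, hn, ?_⟩
      · rw [sq]
        exact mul_le_mul_of_nonneg_right (hcon n (mem_range.1 hn)).le (by positivity)
      · rw [sq]
        exact mul_lt_mul_of_pos_right (hcon n (mem_range.1 hn)) hpos
    rw [hs] at hlt
    have h5 : 3 * x * En S x < 3 * x * ((#S : ℝ) ^ 2 / (3 * x) * B * (#S : ℝ) ^ 2) :=
      mul_lt_mul_of_pos_left hlt (by positivity)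
    have e : 3 * x * ((#S : ℝ) ^ 2 / (3 * x) * B * (#S : ℝ) ^ 2) = (#S : ℝ) ^ 4 * B := by
      field_simp
    rw [e] at h5
    linarith

end Pool.Agent.Helper48.MD
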