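import Pool.Agent.Helper48.MD.Chain
import Pool.Agent.Helper73.MD.Arc

/-!
# Missing digits
-/

set_option autoImplicit false

open Finset Real

namespace Pool.Agent.Helper48.MD

open Pool.Agent.Helper25.RC (repF)

/-- the statement of the arc lemma -/
def ArcLemma : Prop := ∀ (S : Finset ℕ) (m k r : ℕ), 0 < m → 2 ≤ k →
  (∀ a ∈ S, ∀ j < 2 * m - 1, ¬ a ≡ r + j [MOD k * m]) →
  (1 + 1 / ((k : ℝ) - 1) ^ 3) * mE S m ≤ mE S (k * m)

theorem f_eq (S : Finset ℕ) (t : ℝ) :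
    Pool.Agent.Helper73.MD.f S t = Pool.Agent.Helper38.RC.expSum S t := by
  unfold Pool.Agent.Helper73.MD.f Pool.Agent.Helper38.RC.expSum Pool.Agent.Helper73.MD.ee
  refine sum_congr rfl fun a _ => ?_
  congr 3
  ring

/-- the arc lemma (helper73) -/
theorem arcLemma : ArcLemma := by
  intro S m k r hm hk hS
  have h := Pool.Agent.Helper73.MD.arc_mul hm (show 1 < k by omega) hS
  simp only [f_eq] at h
  exact h

/-- a missing digit is an arc without residues -/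
theorem digit_arc {b p d a j : ℕ} (hb : 0 < b) (hd : d < b) (ha : a / b ^ p % b ≠ d)
    (hj : j < b ^ p) : ¬ a ≡ d * b ^ p + j [MOD b ^ (p + 1)] := by
  intro h
  apply ha
  have hp : 0 < b ^ p := pow_pos hb p
  have hlt : d * b ^ p + j < b ^ (p + 1) := by
    calc d * b ^ p + j < d * b ^ p + b ^ p := by omega
      _ = (d + 1) * b ^ p := by ring
      _ ≤ b * b ^ p := Nat.mul_le_mul_right _ hd
      _ = b ^ (p + 1) := by ring
  have h1 : a % b ^ (p + 1) = d * b ^ p + j := by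
    have := h
    unfold Nat.ModEq at this
    rwa [Nat.mod_eq_of_lt hlt] at this
  rw [← Nat.mod_mul_right_div_self, ← pow_succ, h1, mul_comm, Nat.mul_add_div hp,
    Nat.div_eq_of_lt hj, add_zero]

/-- the gain of one missing digit in base `b` -/
noncomputable def gain (b : ℕ) : ℝ := 1 + 1 / ((b : ℝ) ^ 2 - 1) ^ 3

theorem one_le_gain {b : ℕ} (hb : 2 ≤ b) : 1 ≤ gain b := by
  have h : (2 : ℝ) ≤ b := by exact_mod_cast hb
  have : 0 < (b : ℝ) ^ 2 - 1 := by nlinarith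
  unfold gain
  have : 0 < 1 / ((b : ℝ) ^ 2 - 1) ^ 3 := by positivity
  linarith

theorem step (arc : ArcLemma) {S : Finset ℕ} {b p : ℕ} (hb : 2 ≤ b) (hp : 1 ≤ p)
    (hd : ∃ d < b, ∀ a ∈ S, a / b ^ p % b ≠ d) :
    gain b * mE S (b ^ (p - 1)) ≤ mE S (b ^ (p + 1)) := by
  obtain ⟨d, hd, hS⟩ := hd
  have e : b ^ (p + 1) = b ^ 2 * b ^ (p - 1) := by
    rw [← pow_add]
    congr 1
    omega
  have h := arc S (b ^ (p - 1)) (b ^ 2) (d * b ^ p) (by positivity) (by nlinarith) ?_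
  · rw [e]
    unfold gain
    push_cast at h
    exact h
  · intro a ha j hj
    rw [← e]
    refine digit_arc (by omega) hd (hS a ha) (lt_of_lt_of_le hj ?_)
    have e2 : b ^ p = b * b ^ (p - 1) := by
      rw [← pow_succ']
      congr 1
      omega
    rw [e2]
    have : 2 * b ^ (p - 1) ≤ b * b ^ (p - 1) := Nat.mul_le_mul_right _ hb
    omega

/-- missing digits at positions with gaps at least two -/
theorem digits (arc : ArcLemma) {S : Finset ℕ} {b : ℕ} (hb : 2 ≤ b) (P : Finset ℕ) :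
    (∀ p ∈ P, 1 ≤ p) → (∀ p ∈ P, ∀ q ∈ P, p < q → p + 2 ≤ q) →
    (∀ p ∈ P, ∃ d < b, ∀ a ∈ S, a / b ^ p % b ≠ d) → ∀ N, (∀ p ∈ P, p + 1 ≤ N) →
    (#S : ℝ) ^ 4 * gain b ^ #P ≤ mE S (b ^ N) := by
  have hb0 : 0 < b := by omega
  induction P using Finset.induction_on_max with
  | empty =>
    intro _ _ _ N _
    simpa using card_pow_le S (pow_pos hb0 N)
  | insert p P hmax ih =>
    intro h1 h2 h3 N hN
    have hpP : p ∉ P := fun h => (hmax p h).false
    have ih' := ih (fun q hq => h1 q (mem_insert_of_mem hq))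
      (fun q hq q' hq' => h2 q (mem_insert_of_mem hq) q' (mem_insert_of_mem hq'))
      (fun q hq => h3 q (mem_insert_of_mem hq)) (p - 1) (fun q hq => by
        have := h2 q (mem_insert_of_mem hq) p (mem_insert_self _ _) (hmax q hq)
        omega)
    have hs := step arc (S := S) hb (h1 p (mem_insert_self _ _)) (h3 p (mem_insert_self _ _))
    have hm : mE S (b ^ (p + 1)) ≤ mE S (b ^ N) :=
      mE_mono S (pow_pos hb0 N) (pow_dvd_pow b (hN p (mem_insert_self _ _)))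
    rw [card_insert_of_notMem hpP, pow_succ (gain b), ← mul_assoc]
    have hg : 0 ≤ gain b := by linarith [one_le_gain hb]
    calc ((#S : ℝ) ^ 4 * gain b ^ #P) * gain b ≤ mE S (b ^ (p - 1)) * gain b :=
          mul_le_mul_of_nonneg_right ih' hg
      _ = gain b * mE S (b ^ (p - 1)) := mul_comm _ _
      _ ≤ mE S (b ^ N) := hs.trans hm

/-- missing digits: half of all positions can be used -/
theorem digits' (arc : ArcLemma) {S : Finset ℕ} {b : ℕ} (hb : 2 ≤ b) (P : Finset ℕ)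
    (h1 : ∀ p ∈ P, 1 ≤ p) (h3 : ∀ p ∈ P, ∃ d < b, ∀ a ∈ S, a / b ^ p % b ≠ d) {N : ℕ}
    (hN : ∀ p ∈ P, p + 1 ≤ N) : ∃ k : ℕ, #P ≤ 2 * k ∧
      (#S : ℝ) ^ 4 * gain b ^ k ≤ mE S (b ^ N) := by
  have key : ∀ t : ℕ, (#S : ℝ) ^ 4 * gain b ^ #{p ∈ P | p % 2 = t} ≤ mE S (b ^ N) := fun t =>
    digits arc hb _ (fun p hp => h1 p (mem_filter.1 hp).1) (fun p hp q hq hpq => by
      have := (mem_filter.1 hp).2
      have := (mem_filter.1 hq).2
      omega) (fun p hp => h3 p (mem_filter.1 hp).1) N fun p hp => hN p (mem_filter.1 hp).1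
  have hsum : #P = #{p ∈ P | p % 2 = 0} + #{p ∈ P | p % 2 = 1} := by
    rw [← card_filter_add_card_filter_not (fun p => p % 2 = 0)]
    congr 2
    apply filter_congr
    intro p _
    omega
  rcases le_total #{p ∈ P | p % 2 = 0} #{p ∈ P | p % 2 = 1} with h | h
  · exact ⟨_, by omega, key 1⟩
  · exact ⟨_, by omega, key 0⟩

/-- THEOREM D: missing digits give many representations. -/
theorem missing (arc : ArcLemma) {S : Finset ℕ} {b x : ℕ} (hb : 2 ≤ b) (hx : 0 < x)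
    (hS : S ⊆ range x) (P : Finset ℕ) (h1 : ∀ p ∈ P, 1 ≤ p)
    (h3 : ∀ p ∈ P, ∃ d < b, ∀ a ∈ S, a / b ^ p % b ≠ d) (hN : ∀ p ∈ P, b ^ (p + 1) ≤ x) :
    ∃ n < 2 * x, (#S : ℝ) ^ 2 / (3 * x) * gain b ^ (#P / 2) ≤ repF S n := by
  have hb1 : 1 < b := by omega
  have hN' : ∀ p ∈ P, p + 1 ≤ Nat.log b x := fun p hp =>
    (Nat.le_log_iff_pow_le hb1 hx.ne').2 (hN p hp)
  obtain ⟨k, hk, h⟩ := digits' arc hb P h1 h3 hN'
  have hk' : #P / 2 ≤ k := by omega
  refine exists_rep hS hx (le_trans ?_ (mE_le hS (pow_pos (by omega) (Nat.log b x))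
    (Nat.pow_log_le_self b hx.ne')))
  refine le_trans ?_ h
  gcongr
  exact one_le_gain hb

end Pool.Agent.Helper48.MD
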